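import Pool.Agent.K.MP_6e34ef_nt.C2

set_option autoImplicit false

namespace Pool.Agent.Results.MP_6e34ef_nt.ExceptionalSet

open Pool.Agent.P.MP_dc323a_nt

theorem result : ∃ C : ℝ, 0 < C ∧ ∀ X : ℕ, 1 ≤ X →
    ((((Finset.Icc 1 X ×ˢ Finset.Icc 1 X ×ˢ Finset.Icc 1 X).filter (fun t : ℕ × ℕ × ℕ =>
      t.1 + t.2.1 = t.2.2 ∧ Nat.Coprime t.1 t.2.1 ∧
        ∏ p ∈ (t.1 * t.2.1 * t.2.2).primeFactors, p ≤ t.2.2)).card : ℕ) : ℝ) ≤
      C * (X : ℝ) ^ (11 / 20 : ℝ) := by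
  classical
  obtain ⟨C, hC, h⟩ := setupZ.count_fun
  refine ⟨C, hC, fun X hX => ?_⟩
  set U := (Finset.Icc 1 X ×ˢ Finset.Icc 1 X ×ˢ Finset.Icc 1 X).filter (fun t : ℕ × ℕ × ℕ =>
      t.1 + t.2.1 = t.2.2 ∧ Nat.Coprime t.1 t.2.1 ∧
        ∏ p ∈ (t.1 * t.2.1 * t.2.2).primeFactors, p ≤ t.2.2) with hU
  let f : ℕ × ℕ × ℕ → Fin 3 → ℤ := fun t => ![(t.1 : ℤ), (t.2.1 : ℤ), -(t.2.2 : ℤ)]
  have hinj : Function.Injective f := by
    rintro ⟨a, b, c⟩ ⟨a', b', c'⟩ h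
    have h0 := congrFun h 0
    have h1 := congrFun h 1
    have h2 := congrFun h 2
    simp only [f, Matrix.cons_val_zero, Matrix.cons_val_one, Matrix.cons_val, Nat.cast_inj,
      neg_inj] at h0 h1 h2
    rw [h0, h1, h2]
  have h1 := h X (by exact_mod_cast hX) (U.image f) (by
    intro v hv
    obtain ⟨⟨a, b, c⟩, ht, rfl⟩ := Finset.mem_image.1 hv
    simp only [hU, Finset.mem_filter, Finset.mem_product, Finset.mem_Icc] at ht
    obtain ⟨⟨⟨a1, a2⟩, ⟨b1, b2⟩, c1, c2⟩, hs, hc, hr⟩ := ht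
    have hN : ∀ m : ℕ, setupZ.N (m : ℤ) = m := fun m => setupZ.N_natCast m
    have hab : IsCoprime (a : ℤ) (b : ℤ) := Nat.isCoprime_iff_coprime.2 hc
    have hcz : (c : ℤ) = a + b := by exact_mod_cast hs.symm
    have h0 : a * b * c ≠ 0 := by positivity
    refine ⟨?_, ?_, hab, ?_, ?_, ?_, ((∏ p ∈ (a * b * c).primeFactors, p : ℕ) : ℤ), a * b * c, 2,
      ?_, ?_, ?_⟩
    · intro s
      fin_cases s <;> simp [f] <;> omega
    · simp [f, hcz]
    · show IsCoprime (a : ℤ) (-(c : ℤ))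
      rw [hcz, add_comm]
      simpa using (hab.add_mul_left_right 1).neg_right
    · show IsCoprime (b : ℤ) (-(c : ℤ))
      rw [hcz]
      simpa using (hab.symm.add_mul_left_right 1).neg_right
    · intro s
      fin_cases s
      · show setupZ.N (a : ℤ) ≤ X
        rw [hN]; exact_mod_cast a2
      · show setupZ.N (b : ℤ) ≤ X
        rw [hN]; exact_mod_cast b2
      · show setupZ.N (-(c : ℤ)) ≤ X
        rw [setupZ.N_neg, hN]; exact_mod_cast c2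
    · exact_mod_cast Finset.prod_ne_zero_iff.2
        (fun p hp => (Nat.prime_of_mem_primeFactors hp).ne_zero)
    · show (a : ℤ) * b * -(c : ℤ) ∣ _
      rw [mul_neg, neg_dvd]
      exact_mod_cast Nat.dvd_prod_primeFactors_pow_self h0
    · show _ ≤ setupZ.N (-(c : ℤ))
      rw [setupZ.N_neg, hN, hN]; exact_mod_cast hr)
  rw [Finset.card_image_of_injective _ hinj] at h1
  have hd : ((setupZ.d : ℕ) : ℝ) * (11 / 20 : ℝ) = 11 / 20 := by
    show ((1 : ℕ) : ℝ) * (11 / 20 : ℝ) = 11 / 20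
    norm_num
  rwa [hd] at h1

end Pool.Agent.Results.MP_6e34ef_nt.ExceptionalSet
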