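import Pool.Agent.K.MP_6e34ef_nt.C6

set_option autoImplicit false
open NumberField Classical

namespace Pool.Agent.Results.MP_6e34ef_nt.UniformSubexp

theorem result :
    ∀ ε : ℝ, 0 < ε → ∃ C : ℝ, 0 < C ∧
      ∀ (K : Type) [Field K] [NumberField K], ∀ a b c : K,
        a ≠ 0 → b ≠ 0 → c ≠ 0 → a + b + c = 0 →
        (Module.finrank ℚ K : ℝ) * Real.log
          ((((FractionalIdeal.absNorm
              (FractionalIdeal.spanSingleton (nonZeroDivisors (𝓞 K)) a
                + FractionalIdeal.spanSingleton (nonZeroDivisors (𝓞 K)) b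
                + FractionalIdeal.spanSingleton (nonZeroDivisors (𝓞 K)) c) : ℚ) : ℝ)⁻¹
            * ∏ᶠ τ : K →+* ℂ, max (max ‖τ a‖ ‖τ b‖) ‖τ c‖)
            ^ ((1 : ℝ) / (Module.finrank ℚ K : ℝ)))
          ≤ (C * (|(NumberField.discr K : ℝ)| ^ ((1 : ℝ) / (Module.finrank ℚ K : ℝ)))
                ^ ((1 : ℝ) / 2 + ε)
              * ((∏ᶠ v : IsDedekindDomain.HeightOneSpectrum (𝓞 K),
                    if v.valuation K a = v.valuation K b ∧ v.valuation K b = v.valuation K c
                    then (1 : ℝ) else (Ideal.absNorm v.asIdeal : ℝ))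
                  ^ ((1 : ℝ) / (Module.finrank ℚ K : ℝ))) ^ ε) ^ Module.finrank ℚ K :=
  fun ε hε => Pool.Agent.P.MP_6e34ef_nt.AK.final ε hε

end Pool.Agent.Results.MP_6e34ef_nt.UniformSubexp
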